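import Pool.Agent.Helper75.PX.Stmts

/-! # Row MPD: the minimal polynomial has degree at most the degree of the algebra -/

set_option autoImplicit false

universe u

open Module TensorProduct Polynomial

namespace Pool.Agent.Helper75.PX

theorem st_MPD (hS : ST_SIMP.{u}) : ST_MPD.{u} := by
  intro K A _ _ _ _ _ n hn hA x
  haveI : FiniteDimensional K A := FiniteDimensional.of_finrank_pos (by rw [hA]; positivity)
  haveI : IsSimpleRing (AlgebraicClosure K ⊗[K] A) := hS K (AlgebraicClosure K) A
  obtain ⟨m, _, ⟨e⟩⟩ := IsSimpleRing.exists_algEquiv_matrix_of_isAlgClosed (AlgebraicClosure K)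
    (AlgebraicClosure K ⊗[K] A)
  have hm : m = n := by
    have h1 := e.toLinearEquiv.finrank_eq
    rw [Module.finrank_baseChange, Module.finrank_matrix, hA] at h1
    simp only [Fintype.card_fin, Module.finrank_self, mul_one] at h1
    nlinarith [h1, sq_nonneg m, sq_nonneg n, lt_or_ge m n, Nat.pow_left_injective (n := 2)
      (by norm_num) (show (fun k => k ^ 2) m = (fun k => k ^ 2) n by
        simp only []
        rw [h1]
        ring)]
  by_contra hlt
  push Not at hlt
  have hli := Module.Flat.linearIndependent_one_tmul (S := AlgebraicClosure K)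
    (linearIndependent_pow (K := K) x)
  obtain ⟨y, hy⟩ : ∃ y, y = (1 : AlgebraicClosure K) ⊗ₜ[K] x := ⟨_, rfl⟩
  obtain ⟨p, hp⟩ : ∃ p, p = (e y).charpoly := ⟨_, rfl⟩
  have hdeg : p.natDegree = m := by
    rw [hp, Matrix.charpoly_natDegree_eq_dim, Fintype.card_fin]
  have h0 : aeval y p = 0 := by
    apply e.injective
    rw [map_zero]
    have h1 := Polynomial.aeval_algHom_apply e.toAlgHom y p
    have h2 : aeval (e y) p = 0 := by
      rw [hp]
      exact Matrix.aeval_self_charpoly _
    have h3 : (e.toAlgHom : _) y = e y := rfl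
    rw [h3, h2] at h1
    exact h1.symm
  rw [Polynomial.aeval_eq_sum_range' (n := (minpoly K x).natDegree) (by omega),
    Finset.sum_range] at h0
  have h4 : ∀ i : Fin (minpoly K x).natDegree, y ^ (i : ℕ) =
      (1 : AlgebraicClosure K) ⊗ₜ[K] (x ^ (i : ℕ)) := fun i => by
    rw [hy, Algebra.TensorProduct.tmul_pow, one_pow]
  simp only [h4] at h0
  have h5 := Fintype.linearIndependent_iff.1 hli (fun i => p.coeff i) h0 ⟨m, by omega⟩
  have h6 : p.coeff m = 1 := by
    rw [← hdeg, hp]
    exact (Matrix.charpoly_monic _).coeff_natDegree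
  simp only [h6] at h5
  exact one_ne_zero h5

end Pool.Agent.Helper75.PX
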