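import Pool.Agent.Helper75.PX.Stmts6

set_option autoImplicit false

universe u

open Module TensorProduct Cardinal

namespace Pool.Agent.Helper75.PX

open IntermediateField algebraAdjoinAdjoin in
theorem T5b_trdeg (F Om : Type u) [Field F] [Field Om] [Algebra F Om] {n : ℕ} (x : Fin n → Om) :
    Algebra.trdeg F (IntermediateField.adjoin F (Set.range x)) ≤ n := by
  have halg : Algebra.IsAlgebraic (Algebra.adjoin F (Set.range x))
      (IntermediateField.adjoin F (Set.range x)) := by
    exact IsLocalization.isAlgebraic _ (nonZeroDivisors (Algebra.adjoin F (Set.range x)))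
  have h1 := trdeg_add_eq F (Algebra.adjoin F (Set.range x))
    (A := IntermediateField.adjoin F (Set.range x))
  have h2 : Algebra.trdeg (Algebra.adjoin F (Set.range x))
      (IntermediateField.adjoin F (Set.range x)) = 0 := trdeg_eq_zero
  have h3 : Algebra.trdeg F (Algebra.adjoin F (Set.range x)) ≤ n := by
    let f : MvPolynomial (Fin n) F →ₐ[F] (Algebra.adjoin F (Set.range x)) :=
        (MvPolynomial.aeval (R := F) (fun i : Fin n => (⟨x i, Algebra.subset_adjoin ⟨i, rfl⟩⟩ :
          (Algebra.adjoin F (Set.range x)))))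
    have hs : Function.Surjective f := by
      rintro ⟨y, hy⟩
      rw [Algebra.adjoin_range_eq_range_aeval] at hy
      obtain ⟨P, rfl⟩ := hy
      refine ⟨P, Subtype.ext ?_⟩
      have : (Algebra.adjoin F (Set.range x)).val.comp f = MvPolynomial.aeval x := by
        apply MvPolynomial.algHom_ext
        intro i
        simp [f]
      exact DFunLike.congr_fun this P
    have := lift_trdeg_le_of_surjective f hs
    rw [MvPolynomial.trdeg_of_isDomain] at this
    simpa using this
  rw [← h1, h2, add_zero]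
  exact h3

theorem T5b_norm {Om : Type u} [Field Om] (A B a b v0 v1 v2 v3 c d : Om) (h2 : (2 : Om) = 0)
    (hA : A ^ 2 = A + a) (hB : B ^ 2 = B + b)
    (R1 : v0 ^ 2 + v0 * v1 + a * v1 ^ 2 + b * (v2 ^ 2 + v2 * v3 + a * v3 ^ 2) = c)
    (R2 : (v2 ^ 2 + v2 * v3 + a * v3 ^ 2) + (v0 * v3 + v1 * v2) = d) :
    (v0 + v1 * A + v2 * B + v3 * (A * B)) *
      (v0 + v1 * (A + 1) + v2 * B + v3 * ((A + 1) * B)) = c + B * d := by
  linear_combination R1 + B * R2 + (v2 ^ 2 + v2 * v3 + a * v3 ^ 2) * hB +
    (v1 + v3 * B) ^ 2 * hA + (B * (v0 * v2 + a * v1 * v3) +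
      A * ((v0 + v2 * B) * (v1 + v3 * B) + (v1 + v3 * B) ^ 2)) * h2

/-- the algebra: everything lies in the field generated by five elements -/
theorem T5b_mem {F Om : Type u} [Field F] [Field Om] [Algebra F Om]
    (M : IntermediateField F Om) (A B a b : Om) (v : Fin 4 → Om) (h2 : (2 : Om) = 0)
    (ha : a ≠ 0) (hb : b ≠ 0) (hA : A ^ 2 = A + a) (hB : B ^ 2 = B + b)
    (hrel : Relb a b v) (m1 : A ∈ M) (m2 : B ∈ M)
    (m5 : v 0 + v 1 * A + v 2 * B + v 3 * (A * B) ∈ M) :
    a ∈ M ∧ b ∈ M ∧ ∀ k, v k ∈ M := by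
  obtain ⟨R1, R2, R3, R4⟩ := hrel
  have haM : a ∈ M := by
    have : a = A ^ 2 - A := by rw [hA]; ring
    rw [this]; exact sub_mem (pow_mem m1 2) m1
  have hbM : b ∈ M := by
    have : b = B ^ 2 - B := by rw [hB]; ring
    rw [this]; exact sub_mem (pow_mem m2 2) m2
  have hB0 : B ≠ 0 := by
    rintro rfl
    apply hb
    linear_combination -hB
  have hB1 : B + 1 ≠ 0 := by
    intro h
    apply hb
    linear_combination -hB + B * h - B * h2
  have hBp : (B + 1) ^ 2 = (B + 1) + b := by linear_combination hB + B * h2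
  set U0 := v 0 + v 1 * A + v 2 * B + v 3 * (A * B) with hU0
  set U1 := v 0 + v 1 * (A + 1) + v 2 * B + v 3 * ((A + 1) * B) with hU1
  set U2 := v 0 + v 1 * A + v 2 * (B + 1) + v 3 * (A * (B + 1)) with hU2
  set U3 := v 0 + v 1 * (A + 1) + v 2 * (B + 1) + v 3 * ((A + 1) * (B + 1)) with hU3
  have E1 : U0 * U1 * b = B ^ 2 := by
    have h := T5b_norm A B a b (v 0) (v 1) (v 2) (v 3) 1 b⁻¹ h2 hA hB R1 R2
    rw [← hU0, ← hU1] at h
    rw [h, hB]
    field_simp
    ring
  have E2 : U2 * U3 * b = (B + 1) ^ 2 := by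
    have h := T5b_norm A (B + 1) a b (v 0) (v 1) (v 2) (v 3) 1 b⁻¹ h2 hA hBp R1 R2
    rw [← hU2, ← hU3] at h
    rw [h, hBp]
    field_simp
    ring
  have E3 : U0 * U2 * a = (A + 1) ^ 2 := by
    have h := T5b_norm B A b a (v 0) (v 2) (v 1) (v 3) (1 + a⁻¹) a⁻¹ h2 hB hA R3
      (by rw [mul_comm (v 2) (v 1)]; exact R4)
    have e1 : v 0 + v 2 * B + v 1 * A + v 3 * (B * A) = U0 := by rw [hU0]; ring
    have e2 : v 0 + v 2 * (B + 1) + v 1 * A + v 3 * ((B + 1) * A) = U2 := by rw [hU2]; ring
    rw [e1, e2] at h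
    rw [h]
    have e3 : (1 + a⁻¹ + A * a⁻¹) * a = a + 1 + A := by field_simp
    rw [e3]
    linear_combination -hA - A * h2
  have nU0 : U0 ≠ 0 := by
    intro h
    rw [h, zero_mul, zero_mul] at E1
    exact hB0 (pow_eq_zero_iff (two_ne_zero) |>.1 E1.symm)
  have nU2 : U2 ≠ 0 := by
    intro h
    rw [h, zero_mul, zero_mul] at E2
    exact hB1 (pow_eq_zero_iff (two_ne_zero) |>.1 E2.symm)
  have M1 : U1 ∈ M := by
    have : U1 = B ^ 2 / (U0 * b) := by
      rw [eq_div_iff (mul_ne_zero nU0 hb)]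
      linear_combination E1
    rw [this]
    exact div_mem (pow_mem m2 2) (mul_mem m5 hbM)
  have M2 : U2 ∈ M := by
    have : U2 = (A + 1) ^ 2 / (U0 * a) := by
      rw [eq_div_iff (mul_ne_zero nU0 ha)]
      linear_combination E3
    rw [this]
    exact div_mem (pow_mem (add_mem m1 (one_mem M)) 2) (mul_mem m5 haM)
  have M3 : U3 ∈ M := by
    have : U3 = (B + 1) ^ 2 / (U2 * b) := by
      rw [eq_div_iff (mul_ne_zero nU2 hb)]
      linear_combination E2
    rw [this]
    exact div_mem (pow_mem (add_mem m2 (one_mem M)) 2) (mul_mem M2 hbM)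
  have V3 : v 3 ∈ M := by
    have : v 3 = (U3 - U2) - (U1 - U0) := by rw [hU0, hU1, hU2, hU3]; ring
    rw [this]
    exact sub_mem (sub_mem M3 M2) (sub_mem M1 m5)
  have V1 : v 1 ∈ M := by
    have : v 1 = U1 - U0 - v 3 * B := by rw [hU0, hU1]; ring
    rw [this]
    exact sub_mem (sub_mem M1 m5) (mul_mem V3 m2)
  have V2 : v 2 ∈ M := by
    have : v 2 = U2 - U0 - v 3 * A := by rw [hU0, hU2]; ring
    rw [this]
    exact sub_mem (sub_mem M2 m5) (mul_mem V3 m1)
  have V0 : v 0 ∈ M := by
    have : v 0 = U0 - v 1 * A - v 2 * B - v 3 * (A * B) := by rw [hU0]; ring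
    rw [this]
    exact sub_mem (sub_mem (sub_mem m5 (mul_mem V1 m1)) (mul_mem V2 m2))
      (mul_mem V3 (mul_mem m1 m2))
  refine ⟨haM, hbM, fun k => ?_⟩
  fin_cases k
  · exact V0
  · exact V1
  · exact V2
  · exact V3

theorem T5b_root {Om : Type u} [Field Om] [IsAlgClosed Om] (c : Om) :
    ∃ A : Om, A ^ 2 = A + c := by
  have hd : (Polynomial.X ^ 2 - Polynomial.X - Polynomial.C c : Polynomial Om).degree ≠ 0 := by
    have : (Polynomial.X ^ 2 - Polynomial.X - Polynomial.C c : Polynomial Om).degree = 2 := by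
      compute_degree!
    rw [this]; decide
  obtain ⟨A, hA⟩ := IsAlgClosed.exists_root _ hd
  refine ⟨A, ?_⟩
  simp only [Polynomial.IsRoot.def, Polynomial.eval_sub, Polynomial.eval_pow, Polynomial.eval_X,
    Polynomial.eval_C] at hA
  linear_combination hA

theorem st_T5b : ST_T5b.{u} := by
  intro F K _ _ _ a b p r v h2 ha hb hrel
  let Om := AlgebraicClosure K
  obtain ⟨A, hA⟩ := T5b_root (algebraMap K Om a)
  obtain ⟨B, hB⟩ := T5b_root (algebraMap K Om b)
  have inj : Function.Injective (algebraMap K Om) := (algebraMap K Om).injective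
  let x : Fin 5 → Om := ![A, B, algebraMap K Om p, algebraMap K Om r,
    algebraMap K Om (v 0) + algebraMap K Om (v 1) * A +
      algebraMap K Om (v 2) * B + algebraMap K Om (v 3) * (A * B)]
  let M : IntermediateField F Om := IntermediateField.adjoin F (Set.range x)
  have hx : ∀ i, x i ∈ M := fun i => IntermediateField.subset_adjoin F _ ⟨i, rfl⟩
  have key := T5b_mem M A B (algebraMap K Om a) (algebraMap K Om b)
    (fun k => algebraMap K Om (v k)) (by
      have := congrArg (algebraMap K Om) h2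
      rw [map_zero] at this
      rw [← this]
      exact (map_ofNat _ 2).symm) (by
      intro h
      exact ha (inj (by rw [h, map_zero]))) (by
      intro h
      exact hb (inj (by rw [h, map_zero]))) hA hB (by
      obtain ⟨R1, R2, R3, R4⟩ := hrel
      refine ⟨?_, ?_, ?_, ?_⟩
      · have := congrArg (algebraMap K Om) R1
        simpa using this
      · have := congrArg (algebraMap K Om) R2
        simpa using this
      · have := congrArg (algebraMap K Om) R3
        simpa using this
      · have := congrArg (algebraMap K Om) R4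
        simpa using this) (hx 0) (hx 1) (hx 4)
  obtain ⟨k1, k2, k5⟩ := key
  have hle : (IntermediateField.adjoin F (({a, b, p, r} : Set K) ∪ Set.range v)).map
      (IsScalarTower.toAlgHom F K Om) ≤ M := by
    rw [IntermediateField.adjoin_map, IntermediateField.adjoin_le_iff]
    rintro _ ⟨y, hy, rfl⟩
    rcases hy with hy | ⟨k, rfl⟩
    · rcases hy with rfl | rfl | rfl | rfl
      · exact k1
      · exact k2
      · exact hx 2
      · exact hx 3
    · exact k5 k
  have f : IntermediateField.adjoin F (({a, b, p, r} : Set K) ∪ Set.range v) →ₐ[F] M :=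
    (IntermediateField.inclusion hle).comp
      (IntermediateField.equivMap _ (IsScalarTower.toAlgHom F K Om)).toAlgHom
  refine (trdeg_le_of_injective f f.toRingHom.injective).trans ?_
  exact_mod_cast T5b_trdeg F Om x

end Pool.Agent.Helper75.PX
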